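import Pool.Agent.H121.FL.Iface
import Pool.Agent.H168.Y987.Op

/-! `S_on` from `S_eqn`, `S_dec2`, `S_mob`. -/

set_option autoImplicit false

open scoped BigOperators InnerProductSpace Topology ENNReal
open Filter MeasureTheory

namespace Pool.Agent.H894.FL

open Pool.Agent.Y662.TR (LL Cf Mw dv hu clp clp_abs clp_eq)
open Pool.Agent.TH369.AN (Rz)
open Pool.Agent.H987.Z (Rs Gr)
open Pool.Agent.H987.Y (Lt Ker Op kf)
open Pool.Agent.H121.Z987 (HH lint_resample rpow_tsum_le enorm_rpow Gr_meas1)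
open Pool.Agent.H121.FL

/-! ### boxes -/

/-- the box of radius `R` around `a` -/
noncomputable def bx {d : ℕ} (a : Lt d) (R : ℕ) : Finset (Lt d) :=
  Fintype.piFinset fun i => Finset.Icc (a i - R) (a i + R)

theorem mem_bx {d : ℕ} (a x : Lt d) (R : ℕ) (h : nm (a - x) ≤ R) : x ∈ bx a R := by
  unfold bx
  rw [Fintype.mem_piFinset]
  intro i
  rw [Finset.mem_Icc]
  have h1 : ((a - x) i).natAbs ≤ nm (a - x) :=
    Finset.single_le_sum (f := fun i => ((a - x) i).natAbs) (fun _ _ => Nat.zero_le _)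
      (Finset.mem_univ i)
  have h2 : (a - x) i = a i - x i := rfl
  rw [h2] at h1
  omega

theorem card_bx {d : ℕ} (a : Lt d) (R : ℕ) : (bx a R).card = nb d R := by
  unfold bx nb
  rw [Fintype.card_piFinset]
  have h1 : ∀ i : Fin d, (Finset.Icc (a i - (R : ℤ)) (a i + R)).card = 2 * R + 1 := by
    intro i
    rw [Int.card_Icc]
    omega
  rw [Finset.prod_congr rfl fun i _ => h1 i]
  simp

/-! ### the functions `φ a` -/

section fb

variable {d R : ℕ} {t φ : Lt d → Lt d → ℝ} {E : Lt d → ℝ} {g : ℝ}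

theorem fb_zero (H : FB R t φ E g) (a x : Lt d) (hx : x ∉ bx a R) : φ a x = 0 := by
  by_contra h
  exact hx (mem_bx a x R (H.rg a x h))

theorem fb_fin (H : FB R t φ E g) (a : Lt d) : (Function.support (φ a)).Finite := by
  refine (bx a R).finite_toSet.subset ?_
  intro x hx
  by_contra h
  exact hx (fb_zero H a x h)

theorem fb_le (H : FB R t φ E g) (a x : Lt d) : |φ a x| ≤ 1 := by
  have h1 := H.on a a
  rw [if_pos rfl] at h1
  have h2 := le_hasSum h1 x fun y _ => mul_self_nonneg (φ a y)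
  rw [abs_le]
  constructor <;> nlinarith

theorem fb_big (H : FB R t φ E g) (a : Lt d) :
    ∃ x0, φ a x0 ≠ 0 ∧ 1 / (nb d R : ℝ) ≤ φ a x0 ^ 2 := by
  have h1 := H.on a a
  rw [if_pos rfl] at h1
  have h2 : ∑ x ∈ bx a R, φ a x * φ a x = 1 := by
    have h3 : HasSum (fun x => φ a x * φ a x) (∑ x ∈ bx a R, φ a x * φ a x) := by
      refine hasSum_sum_of_ne_finset_zero fun x hx => ?_
      rw [fb_zero H a x hx, mul_zero]
    exact h3.unique h1
  have hn : (0 : ℝ) < nb d R := by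
    unfold nb
    positivity
  by_contra hc
  push Not at hc
  have h4 : ∀ x ∈ bx a R, φ a x * φ a x < 1 / (nb d R : ℝ) := by
    intro x _
    by_cases h0 : φ a x = 0
    · rw [h0, mul_zero]
      positivity
    · have := hc x h0
      rwa [sq] at this
  have h5 : (bx a R).Nonempty := by
    rw [← Finset.card_pos, card_bx]
    exact_mod_cast hn
  have h6 := Finset.sum_lt_sum_of_nonempty h5 h4
  rw [h2, Finset.sum_const, card_bx, nsmul_eq_mul] at h6
  rw [mul_one_div_cancel hn.ne'] at h6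
  exact lt_irrefl _ h6

end fb

/-! ### the pointwise inequality -/

theorem en_real (x : ℝ) : ‖((x : ℝ) : ℂ)‖ₑ = ENNReal.ofReal |x| := by
  rw [← ofReal_norm, Complex.norm_real, Real.norm_eq_abs]

theorem en_rpow_le (x M s : ℝ) (hs : 0 < s) (h : |x| ≤ M) (w : ℂ) :
    ‖((x : ℝ) : ℂ) * w‖ₑ ^ s ≤ ENNReal.ofReal (M ^ s) * ‖w‖ₑ ^ s := by
  rw [enorm_mul, ENNReal.mul_rpow_of_nonneg _ _ hs.le, en_real,
    ENNReal.ofReal_rpow_of_nonneg (abs_nonneg x) hs.le]
  gcongr

theorem ptw {d R r : ℕ} {g b : ℝ} {φ : Lt d → Lt d → ℝ} {t : Lt d → Lt d → ℝ} {E : Lt d → ℝ}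
    (H : FB R t φ E g) (bm : Lt d → Lt d → ℝ) (V : Lt d → ℝ) (lam s : ℝ) (hs : 0 < s)
    (hs1 : s < 1) (z : ℂ) (a y : Lt d) (hz : |E a - z.re| < g / 2)
    (hv : ∀ a', |va φ V a a'| ≤ lam ∧ (2 * R < nm (a - a') → va φ V a a' = 0))
    (hb : ∀ a', |bm a a'| ≤ b * (nb d R : ℝ) ^ 2 ∧ (2 * R + r < nm (a - a') → bm a a' = 0))
    (c : Lt d → ℂ)
    (he : ((E a : ℂ) - z) * c a + ∑' a', ((va φ V a a' + bm a a' : ℝ) : ℂ) * c a' =
      ((φ a y : ℝ) : ℂ)) :
    ‖(E a : ℂ) - z + ((va φ V a a : ℝ) : ℂ)‖ₑ ^ s * ‖c a‖ₑ ^ s ≤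
      (if nm (a - y) ≤ R then 1 else 0) +
        ENNReal.ofReal (lam ^ s) * (∑' a', if nm (a - a') ≤ 2 * R ∧ g / 2 ≤ |E a' - z.re| then
          ‖c a'‖ₑ ^ s else 0) +
        ENNReal.ofReal ((b * (nb d R : ℝ) ^ 2) ^ s) *
          ∑' a', if nm (a - a') ≤ 2 * R + r then ‖c a'‖ₑ ^ s else 0 := by
  classical
  have hw : Summable fun a' => ((va φ V a a' : ℝ) : ℂ) * c a' := by
    refine summable_of_ne_finset_zero (s := bx a (2 * R)) ?_
    intro a' h
    rw [(hv a').2 (by by_contra h1; exact h (mem_bx a a' _ (not_lt.1 h1)))]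
    simp
  have hu : Summable fun a' => ((bm a a' : ℝ) : ℂ) * c a' := by
    refine summable_of_ne_finset_zero (s := bx a (2 * R + r)) ?_
    intro a' h
    rw [(hb a').2 (by by_contra h1; exact h (mem_bx a a' _ (not_lt.1 h1)))]
    simp
  have h1 : ∑' a', ((va φ V a a' + bm a a' : ℝ) : ℂ) * c a' =
      ∑' a', ((va φ V a a' : ℝ) : ℂ) * c a' + ∑' a', ((bm a a' : ℝ) : ℂ) * c a' := by
    rw [← hw.tsum_add hu]
    refine tsum_congr fun a' => ?_
    push_cast
    ring
  have h2 := hw.tsum_eq_add_tsum_ite a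
  have h3 : ((E a : ℂ) - z + ((va φ V a a : ℝ) : ℂ)) * c a =
      ((φ a y : ℝ) : ℂ) - (∑' a', if a' = a then 0 else ((va φ V a a' : ℝ) : ℂ) * c a') -
        ∑' a', ((bm a a' : ℝ) : ℂ) * c a' := by
    rw [h1, h2] at he
    linear_combination he
  rw [← ENNReal.mul_rpow_of_nonneg _ _ hs.le, ← enorm_mul, h3]
  have h4 : ‖((φ a y : ℝ) : ℂ) - (∑' a', if a' = a then 0 else ((va φ V a a' : ℝ) : ℂ) * c a') -
        ∑' a', ((bm a a' : ℝ) : ℂ) * c a'‖ₑ ≤
      ‖((φ a y : ℝ) : ℂ)‖ₑ + (∑' a', ‖if a' = a then 0 else ((va φ V a a' : ℝ) : ℂ) * c a'‖ₑ) +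
        ∑' a', ‖((bm a a' : ℝ) : ℂ) * c a'‖ₑ := by
    refine (enorm_sub_le).trans ?_
    gcongr
    · refine (enorm_sub_le).trans ?_
      gcongr
      exact enorm_tsum_le_tsum_enorm
    · exact enorm_tsum_le_tsum_enorm
  refine (ENNReal.rpow_le_rpow h4 hs.le).trans ?_
  refine (ENNReal.rpow_add_le_add_rpow _ _ hs.le hs1.le).trans ?_
  refine add_le_add ((ENNReal.rpow_add_le_add_rpow _ _ hs.le hs1.le).trans (add_le_add ?_ ?_)) ?_
  · by_cases h5 : nm (a - y) ≤ R
    · rw [if_pos h5, en_real]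
      have h6 : ENNReal.ofReal |φ a y| ≤ 1 := by
        rw [← ENNReal.ofReal_one]
        exact ENNReal.ofReal_le_ofReal (fb_le H a y)
      calc ENNReal.ofReal |φ a y| ^ s ≤ 1 ^ s := ENNReal.rpow_le_rpow h6 hs.le
        _ = 1 := ENNReal.one_rpow s
    · have h6 : φ a y = 0 := by
        by_contra h7
        exact h5 (H.rg a y h7)
      rw [if_neg h5, h6]
      simp [hs]
  · refine (rpow_tsum_le _ s hs hs1.le).trans ?_
    rw [← ENNReal.tsum_mul_left]
    refine ENNReal.tsum_le_tsum fun a' => ?_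
    by_cases h5 : a' = a
    · rw [if_pos h5]
      simp [hs]
    rw [if_neg h5]
    by_cases h6 : nm (a - a') ≤ 2 * R ∧ g / 2 ≤ |E a' - z.re|
    · rw [if_pos h6]
      exact en_rpow_le _ _ s hs (hv a').1 _
    · have h7 : va φ V a a' = 0 := by
        by_cases h8 : nm (a - a') ≤ 2 * R
        · have h9 : |E a' - z.re| < g / 2 := by
            by_contra h10
            exact h6 ⟨h8, not_lt.1 h10⟩
          have h11 : E a = E a' := by
            by_contra h12
            have h13 := H.gp a a' h12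
            have h14 : |E a - E a'| ≤ |E a - z.re| + |E a' - z.re| := by
              have h15 : E a - E a' = (E a - z.re) - (E a' - z.re) := by ring
              rw [h15]
              exact abs_sub _ _
            linarith
          unfold va
          have h12 : ∀ x, φ a x * V x * φ a' x = 0 := by
            intro x
            have h13 := H.ds a a' (fun h => h5 h.symm) h11 x
            calc φ a x * V x * φ a' x = V x * (φ a x * φ a' x) := by ring
              _ = 0 := by rw [h13, mul_zero]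
          simp only [h12, tsum_zero]
        · exact (hv a').2 (not_le.1 h8)
      rw [h7]
      simp [hs]
  · refine (rpow_tsum_le _ s hs hs1.le).trans ?_
    rw [← ENNReal.tsum_mul_left]
    refine ENNReal.tsum_le_tsum fun a' => ?_
    by_cases h6 : nm (a - a') ≤ 2 * R + r
    · rw [if_pos h6]
      exact en_rpow_le _ _ s hs (hb a').1 _
    · rw [if_neg h6, (hb a').2 (not_le.1 h6)]
      simp [hs]

/-! ### the decoupling -/

theorem clp_cont (B : ℝ) : Continuous fun x : ℝ => clp B x := by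
  unfold clp
  exact continuous_const.max (continuous_const.min continuous_id)

open Classical in
theorem dec_sum {ι : Type} [Countable ι] (h2 : S_mob) (T : LL ι →L[ℂ] LL ι) (hT : Rs T)
    (lam s c0 : ℝ) (hlam : 0 < lam) (hs : 0 < s)
    (μ : Measure ℝ) [IsProbabilityMeasure μ] (hμ : ∀ᵐ v ∂μ, |v| ≤ 1)
    (hd : ∀ α β p q : ℂ, β.im ≠ 0 →
      ENNReal.ofReal c0 * ∫⁻ v : ℝ, ENNReal.ofReal (‖p + q * (v : ℂ)‖ ^ s * ‖(v : ℂ) - β‖ ^ (-s)) ∂μ ≤
        ∫⁻ v : ℝ, ENNReal.ofReal (‖(v : ℂ) - α‖ ^ s *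
          (‖p + q * (v : ℂ)‖ ^ s * ‖(v : ℂ) - β‖ ^ (-s))) ∂μ)
    (f : ι → ℝ) (hf : (Function.support f).Finite) (e z : ℂ) (hz : 0 < z.im) (y x0 : ι)
    (hx0 : f x0 ≠ 0) :
    ENNReal.ofReal (c0 * (lam * f x0 ^ 2) ^ s) *
      ∫⁻ ω, ‖∑' x, ((f x : ℝ) : ℂ) * Gr (HH T lam ω) z x y‖ₑ ^ s
        ∂(Measure.infinitePi fun _ : ι => μ) ≤
      ∫⁻ ω, ‖e + ((∑' x, f x * clp lam (lam * ω x) * f x : ℝ) : ℂ)‖ₑ ^ s *
        ‖∑' x, ((f x : ℝ) : ℂ) * Gr (HH T lam ω) z x y‖ₑ ^ s
        ∂(Measure.infinitePi fun _ : ι => μ) := by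
  have hk : 0 < lam * f x0 ^ 2 := by positivity
  obtain ⟨F, hF⟩ : ∃ F : Finset ι, F = hf.toFinset := ⟨_, rfl⟩
  have hF0 : ∀ x, x ∉ F → f x = 0 := by
    intro x hx
    by_contra h
    apply hx
    rw [hF, Set.Finite.mem_toFinset]
    exact h
  have hxF : x0 ∈ F := by
    rw [hF, Set.Finite.mem_toFinset]
    exact hx0
  have hc : ∀ ω : ι → ℝ, ∑' x, ((f x : ℝ) : ℂ) * Gr (HH T lam ω) z x y =
      ∑ x ∈ F, ((f x : ℝ) : ℂ) * Gr (HH T lam ω) z x y := by
    intro ω
    refine tsum_eq_sum fun x hx => ?_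
    rw [hF0 x hx]
    simp
  have hV : ∀ ω : ι → ℝ, ∑' x, f x * clp lam (lam * ω x) * f x =
      ∑ x ∈ F, f x * clp lam (lam * ω x) * f x := by
    intro ω
    refine tsum_eq_sum fun x hx => ?_
    rw [hF0 x hx]
    simp
  have hmc : Measurable fun ω : ι → ℝ => ‖∑' x, ((f x : ℝ) : ℂ) * Gr (HH T lam ω) z x y‖ₑ ^ s := by
    simp only [hc]
    refine Measurable.pow_const (Measurable.enorm ?_) s
    exact Finset.measurable_fun_sum _ fun x _ => (Gr_meas1 T hT lam z x y hz.ne').const_mul _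
  have hmv : Measurable fun ω : ι → ℝ =>
      ‖e + ((∑' x, f x * clp lam (lam * ω x) * f x : ℝ) : ℂ)‖ₑ ^ s *
        ‖∑' x, ((f x : ℝ) : ℂ) * Gr (HH T lam ω) z x y‖ₑ ^ s := by
    refine Measurable.mul ?_ hmc
    refine Measurable.pow_const (Measurable.enorm ?_) s
    refine Measurable.const_add ?_ _
    refine Complex.measurable_ofReal.comp ?_
    simp only [hV]
    refine Finset.measurable_fun_sum _ fun x _ => ?_
    refine Measurable.mul_const ?_ _
    refine Measurable.const_mul ?_ _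
    have h1 : Measurable fun ω : ι → ℝ => ω x := measurable_pi_apply x
    exact (clp_cont lam).measurable.comp (h1.const_mul lam)
  calc ENNReal.ofReal (c0 * (lam * f x0 ^ 2) ^ s) *
      ∫⁻ ω, ‖∑' x, ((f x : ℝ) : ℂ) * Gr (HH T lam ω) z x y‖ₑ ^ s
        ∂(Measure.infinitePi fun _ : ι => μ) =
      ∫⁻ ω, ENNReal.ofReal (c0 * (lam * f x0 ^ 2) ^ s) *
        ∫⁻ v, ‖∑' x, ((f x : ℝ) : ℂ) * Gr (HH T lam (Function.update ω x0 v)) z x y‖ₑ ^ s ∂μ
          ∂(Measure.infinitePi fun _ : ι => μ) := by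
        rw [lint_resample μ x0 _ hmc, lintegral_const_mul' _ _ ENNReal.ofReal_ne_top]
    _ ≤ ∫⁻ ω, ∫⁻ v, ‖e + ((∑' x, f x * clp lam (lam * Function.update ω x0 v x) * f x : ℝ) : ℂ)‖ₑ ^ s *
        ‖∑' x, ((f x : ℝ) : ℂ) * Gr (HH T lam (Function.update ω x0 v)) z x y‖ₑ ^ s ∂μ
        ∂(Measure.infinitePi fun _ : ι => μ) := by
        refine lintegral_mono fun ω => ?_
        obtain ⟨p, q, β, hβ, hm⟩ := h2 ι T hT lam ω z hlam hz x0 y f hf
        obtain ⟨k, hk0⟩ : ∃ k : ℝ, k = lam * f x0 ^ 2 := ⟨_, rfl⟩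
        rw [← hk0] at hk
        obtain ⟨S, hS⟩ : ∃ S : ℝ, S = ∑ x ∈ F.erase x0, f x * clp lam (lam * ω x) * f x := ⟨_, rfl⟩
        obtain ⟨α, hα⟩ : ∃ α : ℂ, α = -(e + (S : ℂ)) / (k : ℂ) := ⟨_, rfl⟩
        have hkc : (k : ℂ) ≠ 0 := by exact_mod_cast hk.ne'
        have e1 : ∀ v : ℝ, |v| ≤ 1 →
            ‖∑' x, ((f x : ℝ) : ℂ) * Gr (HH T lam (Function.update ω x0 v)) z x y‖ₑ ^ s =
              ENNReal.ofReal (‖p + q * (v : ℂ)‖ ^ s * ‖(v : ℂ) - β‖ ^ (-s)) := by
          intro v hv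
          rw [hm v hv, enorm_rpow _ s hs.le, norm_div, Real.div_rpow (norm_nonneg _) (norm_nonneg _),
            Real.rpow_neg (norm_nonneg _), div_eq_mul_inv]
        have e2 : ∀ v : ℝ, |v| ≤ 1 →
            e + ((∑' x, f x * clp lam (lam * Function.update ω x0 v x) * f x : ℝ) : ℂ) =
              (k : ℂ) * ((v : ℂ) - α) := by
          intro v hv
          have h3 : ∑' x, f x * clp lam (lam * Function.update ω x0 v x) * f x = S + k * v := by
            rw [hV, ← Finset.sum_erase_add _ _ hxF]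
            have h4 : ∑ x ∈ F.erase x0, f x * clp lam (lam * Function.update ω x0 v x) * f x = S := by
              rw [hS]
              refine Finset.sum_congr rfl fun x hx => ?_
              rw [Function.update_of_ne (Finset.ne_of_mem_erase hx)]
            rw [h4, Function.update_self, clp_eq]
            · rw [hk0]
              ring
            · rw [abs_mul]
              exact mul_le_of_le_one_right (abs_nonneg _) hv
          rw [h3, hα]
          push_cast
          field_simp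
          ring
        have i1 : ∫⁻ v : ℝ, ‖∑' x, ((f x : ℝ) : ℂ) * Gr (HH T lam (Function.update ω x0 v)) z x y‖ₑ ^ s ∂μ =
            ∫⁻ v : ℝ, ENNReal.ofReal (‖p + q * (v : ℂ)‖ ^ s * ‖(v : ℂ) - β‖ ^ (-s)) ∂μ := by
          refine lintegral_congr_ae ?_
          filter_upwards [hμ] with v hv
          exact e1 v hv
        have i2 : ∫⁻ v : ℝ, ‖e + ((∑' x, f x * clp lam (lam * Function.update ω x0 v x) * f x : ℝ) : ℂ)‖ₑ ^ s *
            ‖∑' x, ((f x : ℝ) : ℂ) * Gr (HH T lam (Function.update ω x0 v)) z x y‖ₑ ^ s ∂μ =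
            ENNReal.ofReal (k ^ s) * ∫⁻ v : ℝ, ENNReal.ofReal (‖(v : ℂ) - α‖ ^ s *
              (‖p + q * (v : ℂ)‖ ^ s * ‖(v : ℂ) - β‖ ^ (-s))) ∂μ := by
          rw [← lintegral_const_mul' _ _ ENNReal.ofReal_ne_top]
          refine lintegral_congr_ae ?_
          filter_upwards [hμ] with v hv
          rw [e1 v hv, e2 v hv, enorm_rpow _ s hs.le, norm_mul, Complex.norm_real,
            Real.norm_of_nonneg hk.le, Real.mul_rpow hk.le (norm_nonneg _),
            ← ENNReal.ofReal_mul (by positivity), ← ENNReal.ofReal_mul (by positivity)]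
          congr 1
          ring
        simp only
        rw [i1, i2, ← hk0, mul_comm c0, ENNReal.ofReal_mul (by positivity), mul_assoc]
        gcongr
        exact hd α β p q hβ
    _ = _ := by
        rw [lint_resample μ x0 _ hmv]

/-! ### the theorem -/

theorem on (h1 : S_eqn) (h2 : S_dec2) (h3 : S_mob) : S_on := by
  classical
  intro d R r s D hs hs1 hD
  obtain ⟨c0, hc0, hd⟩ := h2 s D hs hs1 hD
  have hn : (0 : ℝ) < nb d R := by
    unfold nb
    positivity
  refine ⟨c0 / (nb d R : ℝ) ^ s, by positivity, ?_⟩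
  intro g h b t φ B E hg H hKt hb0 hB μ hμP lam hμ hlam y a z hz hzE
  obtain ⟨⟨h', hK⟩, hv, hba, heq⟩ := h1 d R r g h b t φ B E H hKt hb0 hB
  have hT : Rs (Op (tB t B)) := (Pool.Agent.H168.Y987.op _ _ _ hK).2.2.1
  obtain ⟨T, hTd⟩ : ∃ T, T = Op (tB t B) := ⟨_, rfl⟩
  rw [← hTd] at hT heq ⊢
  obtain ⟨x0, hx0, hx1⟩ := fb_big H a
  have hfin := fb_fin H a
  have hmf : ∀ a', Measurable fun ω : Lt d → ℝ => ‖cf φ T lam ω z y a'‖ₑ ^ s := by
    intro a'
    refine Measurable.pow_const (Measurable.enorm ?_) s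
    have h4 : ∀ ω : Lt d → ℝ, cf φ T lam ω z y a' =
        ∑ x ∈ bx a' R, ((φ a' x : ℝ) : ℂ) * Gr (HH T lam ω) z x y := by
      intro ω
      unfold cf
      refine tsum_eq_sum fun x hx => ?_
      rw [fb_zero H a' x hx]
      simp
    simp only [h4]
    exact Finset.measurable_fun_sum _ fun x _ => (Gr_meas1 T hT lam z x y hz.ne').const_mul _
  calc ENNReal.ofReal (c0 / (nb d R : ℝ) ^ s * lam ^ s) * fa φ T lam s μ z y a ≤
      ENNReal.ofReal (c0 * (lam * φ a x0 ^ 2) ^ s) * fa φ T lam s μ z y a := by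
        refine mul_le_mul_left (ENNReal.ofReal_le_ofReal ?_) _
        have h5 : c0 / (nb d R : ℝ) ^ s * lam ^ s = c0 * (lam * (1 / (nb d R : ℝ))) ^ s := by
          rw [Real.mul_rpow hlam.le (by positivity), Real.div_rpow (by norm_num) hn.le,
            Real.one_rpow]
          ring
        rw [h5]
        gcongr
    _ ≤ ∫⁻ ω, ‖((E a : ℂ) - z) + ((va φ (fun x => clp lam (lam * ω x)) a a : ℝ) : ℂ)‖ₑ ^ s *
          ‖cf φ T lam ω z y a‖ₑ ^ s ∂(Measure.infinitePi fun _ : Lt d => μ) := by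
        exact dec_sum h3 T hT lam s c0 hlam hs μ hμ.1 (fun α β p q hβ => hd μ hμ α β p q hβ)
          (φ a) hfin ((E a : ℂ) - z) z hz y x0 hx0
    _ ≤ ∫⁻ ω, ((if nm (a - y) ≤ R then 1 else 0) +
        ENNReal.ofReal (lam ^ s) * (∑' a', if nm (a - a') ≤ 2 * R ∧ g / 2 ≤ |E a' - z.re| then
          ‖cf φ T lam ω z y a'‖ₑ ^ s else 0) +
        ENNReal.ofReal ((b * (nb d R : ℝ) ^ 2) ^ s) *
          ∑' a', if nm (a - a') ≤ 2 * R + r then ‖cf φ T lam ω z y a'‖ₑ ^ s else 0)
          ∂(Measure.infinitePi fun _ : Lt d => μ) := by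
        refine lintegral_mono fun ω => ?_
        refine ptw H (ba φ B) (fun x => clp lam (lam * ω x)) lam s hs hs1 z a y hzE
          (fun a' => hv lam _ a a' hlam.le fun x => ?_) (hba a) (cf φ T lam ω z y)
          (heq lam ω z y a hlam hz.ne')
        exact (clp_abs lam _).trans (le_of_eq (abs_of_pos hlam))
    _ = _ := by
        have m1 : ∀ a', Measurable fun ω : Lt d → ℝ =>
            (if nm (a - a') ≤ 2 * R ∧ g / 2 ≤ |E a' - z.re| then
              ‖cf φ T lam ω z y a'‖ₑ ^ s else 0 : ℝ≥0∞) := by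
          intro a'
          split_ifs
          · exact hmf a'
          · exact measurable_const
        have m2 : ∀ a', Measurable fun ω : Lt d → ℝ =>
            (if nm (a - a') ≤ 2 * R + r then ‖cf φ T lam ω z y a'‖ₑ ^ s else 0 : ℝ≥0∞) := by
          intro a'
          split_ifs
          · exact hmf a'
          · exact measurable_const
        have m3 : Measurable fun ω : Lt d → ℝ => ((if nm (a - y) ≤ R then 1 else 0) +
            ENNReal.ofReal (lam ^ s) *
            (∑' a', if nm (a - a') ≤ 2 * R ∧ g / 2 ≤ |E a' - z.re| then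
              ‖cf φ T lam ω z y a'‖ₑ ^ s else 0) : ℝ≥0∞) :=
          measurable_const.add ((Measurable.tsum m1).const_mul _)
        rw [lintegral_add_left m3, lintegral_add_left measurable_const,
          lintegral_const, measure_univ, mul_one, lintegral_const_mul' _ _ ENNReal.ofReal_ne_top,
          lintegral_const_mul' _ _ ENNReal.ofReal_ne_top,
          lintegral_tsum fun a' => (m1 a').aemeasurable,
          lintegral_tsum fun a' => (m2 a').aemeasurable]
        congr 1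
        · congr 1
          congr 1
          refine tsum_congr fun a' => ?_
          split_ifs
          · rfl
          · exact lintegral_zero
        · congr 1
          refine tsum_congr fun a' => ?_
          split_ifs
          · rfl
          · exact lintegral_zero

end Pool.Agent.H894.FL
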